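import Pool.Agent.BEZ.Stmts

set_option autoImplicit false

namespace Pool.Agent.BEZ.H16

open MvPolynomial

/-- polynomials embed in Laurent series -/
noncomputable def pl (k : Type) [Field k] : Polynomial k →+* LaurentSeries k :=
  (algebraMap (PowerSeries k) (LaurentSeries k)).comp Polynomial.coeToPowerSeries.ringHom

theorem ps_inj (k : Type) [Field k] :
    Function.Injective (algebraMap (PowerSeries k) (LaurentSeries k)) :=
  IsFractionRing.injective (PowerSeries k) (LaurentSeries k)

theorem pl_inj (k : Type) [Field k] : Function.Injective (pl k) := by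
  intro a b h
  have h1 := ps_inj k h
  exact Polynomial.coe_injective k h1

theorem ex_psi (k K : Type) [Field k] [Field K] [Algebra (Polynomial k) K]
    [IsFractionRing (Polynomial k) K] :
    ∃ ψ : K →+* LaurentSeries k, ψ.comp (algebraMap (Polynomial k) K) = pl k := by
  refine ⟨IsFractionRing.lift (pl_inj k), ?_⟩
  apply RingHom.ext
  intro x
  rw [RingHom.comp_apply, IsFractionRing.lift_algebraMap]

theorem main (k K ι τ : Type) [Field k] [Field K] [Algebra (Polynomial k) K]
    [IsFractionRing (Polynomial k) K] [Fintype ι] [Fintype τ]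
    (G : ι → MvPolynomial τ (Polynomial k)) (U : τ → PowerSeries k)
    (hU : ∀ i, PowerSeries.constantCoeff (U i) ≠ 0)
    (hG : ∀ j, eval₂ (Polynomial.coeToPowerSeries.ringHom) U (G j) = 0) :
    ∃ (L : Type) (_ : Field L) (_ : Algebra K L)
    (_ : Module.Finite K L) (T : τ → L), (∀ i, T i ≠ 0) ∧
    ∀ j, eval₂ ((algebraMap K L).comp (algebraMap (Polynomial k) K)) T (G j) = 0 := by
  classical
  obtain ⟨ψ, hψ⟩ := ex_psi k K
  obtain ⟨V, hVd⟩ : ∃ V : τ → LaurentSeries k,
      V = fun i => algebraMap (PowerSeries k) (LaurentSeries k) (U i) := ⟨_, rfl⟩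
  have hV : ∀ i, V i ≠ 0 := by
    intro i h
    apply hU i
    have : U i = 0 := by
      apply ps_inj k
      rw [map_zero, ← h, hVd]
    rw [this, map_zero]
  obtain ⟨W, hWn, hWs⟩ : ∃ W : Option τ → LaurentSeries k, W none = (∏ i, V i)⁻¹ ∧
      W ∘ some = V := ⟨fun o => o.elim (∏ i, V i)⁻¹ V, rfl, rfl⟩
  obtain ⟨φ, hφd⟩ : ∃ φ : MvPolynomial (Option τ) K →+* LaurentSeries k,
    φ = eval₂Hom ψ W := ⟨_, rfl⟩
  obtain ⟨Gm, hGm⟩ : ∃ Gm : ι → MvPolynomial (Option τ) K, ∀ j, Gm j =
    rename some (MvPolynomial.map (algebraMap (Polynomial k) K) (G j)) := ⟨_, fun _ => rfl⟩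
  obtain ⟨q, hq⟩ : ∃ q : MvPolynomial (Option τ) K, q = X none * (∏ i : τ, X (some i)) - 1 :=
    ⟨_, rfl⟩
  have hφG : ∀ j, φ (Gm j) = 0 := by
    intro j
    rw [hφd, hGm, coe_eval₂Hom, eval₂_rename, eval₂_map, hψ, hWs, hVd]
    have h1 := congrArg (algebraMap (PowerSeries k) (LaurentSeries k)) (hG j)
    rw [map_zero, eval₂_comp_left] at h1
    exact h1
  have hφq : φ q = 0 := by
    rw [hq, map_sub, map_mul, map_one, map_prod]
    have h1 : φ (X none) = (∏ i, V i)⁻¹ := by
      rw [hφd, coe_eval₂Hom, eval₂_X, hWn]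
    have h2 : ∀ i : τ, φ (X (some i)) = V i := fun i => by
      rw [hφd, coe_eval₂Hom, eval₂_X]
      exact congrFun hWs i
    rw [h1, Finset.prod_congr rfl (fun i _ => h2 i),
      inv_mul_cancel₀ (Finset.prod_ne_zero_iff.2 fun i _ => hV i), sub_self]
  obtain ⟨I, hId⟩ : ∃ I : Ideal (MvPolynomial (Option τ) K),
    I = Ideal.span (Set.range Gm ∪ {q}) := ⟨_, rfl⟩
  have hI : I ≤ RingHom.ker φ := by
    rw [hId]
    apply Ideal.span_le.2
    intro x hx
    rcases hx with ⟨j, rfl⟩ | hx
    · exact hφG j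
    · rw [Set.mem_singleton_iff.1 hx]
      exact hφq
  have hI1 : I ≠ ⊤ := by
    intro h
    have h1 : (1 : MvPolynomial (Option τ) K) ∈ RingHom.ker φ := hI (h ▸ Submodule.mem_top)
    rw [RingHom.mem_ker, map_one] at h1
    exact one_ne_zero h1
  obtain ⟨m, hm, hIm⟩ := Ideal.exists_le_maximal I hI1
  let _ : Field (MvPolynomial (Option τ) K ⧸ m) := Ideal.Quotient.field m
  have hfin : Module.Finite K (MvPolynomial (Option τ) K ⧸ m) :=
    finite_of_finite_type_of_isJacobsonRing K (MvPolynomial (Option τ) K ⧸ m)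
  refine ⟨MvPolynomial (Option τ) K ⧸ m, inferInstance, inferInstance, hfin,
    fun i => Ideal.Quotient.mk m (X (some i)), ?_, ?_⟩
  · have h1 : Ideal.Quotient.mk m q = 0 :=
      Ideal.Quotient.eq_zero_iff_mem.2 (hIm (hId ▸ Ideal.subset_span (Or.inr rfl)))
    have h2 : Ideal.Quotient.mk m (X none) * ∏ i : τ, Ideal.Quotient.mk m (X (some i)) = 1 := by
      rw [hq, map_sub, map_mul, map_one, map_prod] at h1
      exact sub_eq_zero.1 h1
    intro i hi
    have h4 : ∏ i : τ, Ideal.Quotient.mk m (X (some i)) = 0 :=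
      Finset.prod_eq_zero (Finset.mem_univ i) hi
    rw [h4, mul_zero] at h2
    exact zero_ne_one h2
  · intro j
    have h1 : Ideal.Quotient.mk m (Gm j) = 0 :=
      Ideal.Quotient.eq_zero_iff_mem.2 (hIm (hId ▸ Ideal.subset_span (Or.inl ⟨j, rfl⟩)))
    have h2 : eval₂ (algebraMap K (MvPolynomial (Option τ) K ⧸ m))
        (fun i => Ideal.Quotient.mk m (X (some i)))
        (MvPolynomial.map (algebraMap (Polynomial k) K) (G j)) = Ideal.Quotient.mk m (Gm j) := by
      have h3 : (aeval (R := K) fun i : τ => Ideal.Quotient.mk m (X (some i))) =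
          (Ideal.Quotient.mkₐ K m).comp (rename some) := by
        apply MvPolynomial.algHom_ext
        intro i
        simp
      have h4 := DFunLike.congr_fun h3 (MvPolynomial.map (algebraMap (Polynomial k) K) (G j))
      rw [hGm]
      exact h4
    rw [← eval₂_map, h2, h1]

/-- **FEX** -/
theorem fex : FexStmt := by
  intro k ι τ _ _ _ G U hU hG
  exact main k (FractionRing (Polynomial k)) ι τ G U hU hG

end Pool.Agent.BEZ.H16
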